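import Pool.Agent.Y969.SM.Stm2

set_option autoImplicit false

/-! Project SX, task A2: comparison of twisted gcd sums with weights. -/

namespace Pool.Agent.Y54.SX

open Finset
open Pool.Agent.Y969.SM (Wt gk gl w2 S_A2)
open Pool.Agent.W184.NZ (w1)

noncomputable section

/-! ### multiples -/

theorem re_mul (M d : ℕ) (hd : 1 ≤ d) (u : ℕ → ℝ) :
    ∑ m ∈ Icc 1 M, (if d ∣ m then u m else 0) = ∑ a ∈ Icc 1 (M / d), u (d * a) := by
  rw [← Finset.sum_filter]
  refine Finset.sum_nbij' (fun m => m / d) (fun a => d * a) ?_ ?_ ?_ ?_ ?_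
  · intro m hm
    rw [Finset.mem_filter, Finset.mem_Icc] at hm
    obtain ⟨⟨h1, h2⟩, k, rfl⟩ := hm
    rw [Finset.mem_Icc, Nat.mul_div_cancel_left _ hd]
    constructor
    · rcases Nat.eq_zero_or_pos k with hk | hk
      · subst hk; simp at h1
      · exact hk
    · rw [Nat.le_div_iff_mul_le hd, mul_comm]; exact h2
  · intro a ha
    rw [Finset.mem_Icc] at ha
    rw [Finset.mem_filter, Finset.mem_Icc]
    refine ⟨⟨Nat.mul_pos hd ha.1, ?_⟩, Dvd.intro _ rfl⟩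
    have := (Nat.le_div_iff_mul_le hd).1 ha.2
    rwa [mul_comm] at this
  · intro m hm
    rw [Finset.mem_filter] at hm
    exact Nat.mul_div_cancel' hm.2
  · intro a _
    exact Nat.mul_div_cancel_left _ hd
  · intro m hm
    rw [Finset.mem_filter] at hm
    show u m = u (d * (m / d))
    rw [Nat.mul_div_cancel' hm.2]

theorem re_zero (M d : ℕ) (hd : 1 ≤ d) (u : ℕ → ℝ) (hu : ∀ m, M < m → u m = 0) :
    ∑ m ∈ Icc 1 M, (if d ∣ m then u m else 0) = ∑ a ∈ Icc 1 M, u (d * a) := by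
  rw [re_mul M d hd u]
  refine Finset.sum_subset ?_ ?_
  · exact Finset.Icc_subset_Icc_right (Nat.div_le_self _ _)
  · intro a ha ha'
    rw [Finset.mem_Icc] at ha ha'
    apply hu
    have h3 : M / d < a := by
      by_contra hc
      exact ha' ⟨ha.1, not_lt.1 hc⟩
    have := (Nat.div_lt_iff_lt_mul hd).1 h3
    rwa [mul_comm] at this

theorem re_le (M d : ℕ) (hd : 1 ≤ d) (u : ℕ → ℝ) (hu : ∀ m, 0 ≤ u m) :
    ∑ m ∈ Icc 1 M, (if d ∣ m then u m else 0) ≤ ∑ a ∈ Icc 1 M, u (d * a) := by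
  rw [re_mul M d hd u]
  refine Finset.sum_le_sum_of_subset_of_nonneg ?_ ?_
  · exact Finset.Icc_subset_Icc_right (Nat.div_le_self _ _)
  · intro a _ _; exact hu _

/-! ### the harmonic sum and the sum of the gcd -/

theorem har (M : ℕ) (L : ℝ) (hL : 1 ≤ L) (hM : Real.log M ≤ L) :
    ∑ a ∈ Icc 1 M, (1 : ℝ) / a ≤ 2 * L := by
  have h1 := harmonic_le_one_add_log M
  have h2 : ((harmonic M : ℚ) : ℝ) = ∑ a ∈ Icc 1 M, (1 : ℝ) / a := by
    rw [harmonic_eq_sum_Icc]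
    push_cast
    exact Finset.sum_congr rfl (fun a _ => (one_div _).symm)
  rw [← h2]
  linarith

theorem har0 (M : ℕ) : 0 ≤ ∑ a ∈ Icc 1 M, (1 : ℝ) / a :=
  Finset.sum_nonneg (fun a _ => by positivity)

theorem gsum (M : ℕ) (L : ℝ) (hL : 1 ≤ L) (hM : Real.log M ≤ L) :
    ∑ m ∈ Icc 1 M, ∑ n ∈ Icc 1 M, (Nat.gcd m n : ℝ) / ((m : ℝ) * n) ≤ 8 * L ^ 3 := by
  have h1 : ∀ m ∈ Icc 1 M, ∀ n ∈ Icc 1 M, (Nat.gcd m n : ℝ) / ((m : ℝ) * n) ≤
      ∑ d ∈ Icc 1 M, (d : ℝ) * ((if d ∣ m then (1 : ℝ) / m else 0) * (if d ∣ n then (1 : ℝ) / n else 0)) := by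
    intro m hm n hn
    rw [Finset.mem_Icc] at hm hn
    have hg : Nat.gcd m n ∈ Icc 1 M := by
      rw [Finset.mem_Icc]
      exact ⟨Nat.gcd_pos_of_pos_left _ hm.1, (Nat.gcd_le_left _ hm.1).trans hm.2⟩
    refine le_trans (le_of_eq ?_) (Finset.single_le_sum
      (f := fun d : ℕ => (d : ℝ) * ((if d ∣ m then (1 : ℝ) / m else 0) * (if d ∣ n then (1 : ℝ) / n else 0)))
      (fun d _ => ?_) hg)
    · simp only [Nat.gcd_dvd_left, Nat.gcd_dvd_right, if_true]
      rw [div_eq_mul_one_div, one_div_mul_one_div]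
    · positivity
  have h2 : ∀ d ∈ Icc 1 M, ∑ m ∈ Icc 1 M, (if d ∣ m then (1 : ℝ) / m else 0) ≤
      (1 / (d : ℝ)) * ∑ a ∈ Icc 1 M, (1 : ℝ) / a := by
    intro d hd
    rw [Finset.mem_Icc] at hd
    refine (re_le M d hd.1 (fun m => (1 : ℝ) / m) (fun m => by positivity)).trans (le_of_eq ?_)
    rw [Finset.mul_sum]
    refine Finset.sum_congr rfl (fun a _ => ?_)
    push_cast
    rw [one_div_mul_one_div]
  calc ∑ m ∈ Icc 1 M, ∑ n ∈ Icc 1 M, (Nat.gcd m n : ℝ) / ((m : ℝ) * n)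
      ≤ ∑ m ∈ Icc 1 M, ∑ n ∈ Icc 1 M, ∑ d ∈ Icc 1 M, (d : ℝ) *
          ((if d ∣ m then (1 : ℝ) / m else 0) * (if d ∣ n then (1 : ℝ) / n else 0)) :=
        Finset.sum_le_sum (fun m hm => Finset.sum_le_sum (fun n hn => h1 m hm n hn))
    _ = ∑ d ∈ Icc 1 M, (d : ℝ) * ((∑ m ∈ Icc 1 M, (if d ∣ m then (1 : ℝ) / m else 0)) *
          (∑ n ∈ Icc 1 M, (if d ∣ n then (1 : ℝ) / n else 0))) := by
        rw [Finset.sum_congr rfl (fun m _ => Finset.sum_comm)]
        rw [Finset.sum_comm]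
        refine Finset.sum_congr rfl (fun d _ => ?_)
        rw [Finset.sum_mul_sum, Finset.mul_sum]
        refine Finset.sum_congr rfl (fun m _ => ?_)
        rw [Finset.mul_sum]
    _ ≤ ∑ d ∈ Icc 1 M, (d : ℝ) * (((1 / (d : ℝ)) * ∑ a ∈ Icc 1 M, (1 : ℝ) / a) *
          ((1 / (d : ℝ)) * ∑ a ∈ Icc 1 M, (1 : ℝ) / a)) := by
        refine Finset.sum_le_sum (fun d hd => ?_)
        have h3 := h2 d hd
        have h4 : 0 ≤ ∑ m ∈ Icc 1 M, (if d ∣ m then (1 : ℝ) / m else 0) :=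
          Finset.sum_nonneg (fun m _ => by positivity)
        exact mul_le_mul_of_nonneg_left (mul_le_mul h3 h3 h4 (h4.trans h3)) (by positivity)
    _ = (∑ a ∈ Icc 1 M, (1 : ℝ) / a) ^ 3 := by
        have h5 : ∀ d ∈ Icc 1 M, (d : ℝ) * (((1 / (d : ℝ)) * ∑ a ∈ Icc 1 M, (1 : ℝ) / a) *
          ((1 / (d : ℝ)) * ∑ a ∈ Icc 1 M, (1 : ℝ) / a)) =
          (1 : ℝ) / d * (∑ a ∈ Icc 1 M, (1 : ℝ) / a) ^ 2 := by
          intro d hd
          rw [Finset.mem_Icc] at hd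
          have : (d : ℝ) ≠ 0 := by
            have := hd.1
            positivity
          field_simp
        rw [Finset.sum_congr rfl h5, ← Finset.sum_mul]
        ring
    _ ≤ (2 * L) ^ 3 := by
        exact pow_le_pow_left₀ (har0 M) (har M L hL hM) 3
    _ = 8 * L ^ 3 := by ring

/-! ### the kernel -/

theorem gk_nn (a b : ℕ) : 0 ≤ gk a b := by unfold gk; positivity

theorem gk_comm (a b : ℕ) : gk a b = gk b a := by
  unfold gk; rw [Nat.gcd_comm, mul_comm (a : ℝ)]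

theorem gl_comm (a b : ℕ) : gl a b = gl b a := by
  unfold gl; rw [Nat.gcd_comm, mul_comm (a : ℝ)]

def kap (L : ℝ) (a b : ℕ) : ℝ := gk a b * (L + gl a b)

theorem kap_comm (L : ℝ) (a b : ℕ) : kap L a b = kap L b a := by
  unfold kap; rw [gk_comm, gl_comm]

theorem kap_mul (L : ℝ) (p a b : ℕ) (hp : 1 ≤ p) : kap L (p * a) (p * b) = 1 / (p : ℝ) * kap L a b := by
  have hp' : (p : ℝ) ≠ 0 := by positivity
  have h1 : gk (p * a) (p * b) = 1 / (p : ℝ) * gk a b := by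
    unfold gk
    rw [Nat.gcd_mul_left]
    push_cast
    by_cases ha : (a : ℝ) = 0
    · simp [ha]
    by_cases hb : (b : ℝ) = 0
    · simp [hb]
    field_simp
  have h2 : gl (p * a) (p * b) = gl a b := by
    unfold gl
    rw [Nat.gcd_mul_left]
    push_cast
    congr 1
    by_cases ha : (a : ℝ) = 0
    · simp [ha]
    by_cases hb : (b : ℝ) = 0
    · simp [hb]
    field_simp
  unfold kap
  rw [h1, h2]
  ring

theorem kap_left (L : ℝ) (p a b : ℕ) (hp : p.Prime) (ha : 1 ≤ a) (hb : 1 ≤ b) (h : ¬ p ∣ b) :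
    kap L (p * a) b = 1 / (p : ℝ) * kap L a b - 1 / (p : ℝ) * Real.log p * gk a b := by
  have hp0 : 0 < (p : ℝ) := by exact_mod_cast hp.pos
  have hp' : (p : ℝ) ≠ 0 := hp0.ne'
  have ha' : (a : ℝ) ≠ 0 := by positivity
  have hb' : (b : ℝ) ≠ 0 := by positivity
  have hg : Nat.gcd (p * a) b = Nat.gcd a b := by
    have hc : Nat.Coprime p b := (Nat.Prime.coprime_iff_not_dvd hp).2 h
    exact Nat.Coprime.gcd_mul_left_cancel a hc
  have hg0 : (0 : ℝ) < Nat.gcd a b := by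
    exact_mod_cast Nat.gcd_pos_of_pos_left _ ha
  have h1 : gk (p * a) b = 1 / (p : ℝ) * gk a b := by
    unfold gk
    rw [hg]
    push_cast
    field_simp
  have h2 : gl (p * a) b = gl a b - Real.log p := by
    unfold gl
    rw [hg]
    push_cast
    rw [← Real.log_div (by positivity) hp']
    congr 1
    field_simp
  unfold kap
  rw [h1, h2]
  ring

theorem gk_le (m n h l : ℕ) (hm : 1 ≤ m) (hn : 1 ≤ n) (hh : 1 ≤ h) (hl : 1 ≤ l) :
    gk (m * h) (n * l) ≤ (Nat.gcd m n : ℝ) / ((m : ℝ) * n) := by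
  have h1 : Nat.gcd (m * h) (n * l) ≤ Nat.gcd m n * (h * l) := by
    apply Nat.le_of_dvd
    · exact Nat.mul_pos (Nat.gcd_pos_of_pos_left _ hm) (Nat.mul_pos hh hl)
    · rw [← Nat.gcd_mul_right]
      apply Nat.dvd_gcd
      · exact (Nat.gcd_dvd_left _ _).trans ⟨l, by ring⟩
      · exact (Nat.gcd_dvd_right _ _).trans ⟨h, by ring⟩
  have h2 : (Nat.gcd (m * h) (n * l) : ℝ) ≤ Nat.gcd m n * (h * l) := by exact_mod_cast h1
  have hm' : (0 : ℝ) < m := by positivity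
  have hn' : (0 : ℝ) < n := by positivity
  have hh' : (0 : ℝ) < h := by positivity
  have hl' : (0 : ℝ) < l := by positivity
  unfold gk
  rw [div_le_div_iff₀ (by positivity) (by positivity)]
  push_cast
  nlinarith [mul_le_mul_of_nonneg_right h2 (mul_pos hm' hn').le]

theorem gl_abs (L : ℝ) (M m n h l : ℕ) (hL : 1 ≤ L) (hM : Real.log M ≤ L) (hm : 1 ≤ m) (hn : 1 ≤ n)
    (hm' : m ≤ M) (hn' : n ≤ M) (hh : 1 ≤ h) (hl : 1 ≤ l) :
    |L + gl (m * h) (n * l)| ≤ (3 + Real.log (h * l)) * L := by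
  have hm1 : (0 : ℝ) < m := by positivity
  have hn1 : (0 : ℝ) < n := by positivity
  have hh1 : (0 : ℝ) < h := by positivity
  have hl1 : (0 : ℝ) < l := by positivity
  have hM1 : (0 : ℝ) < M := by
    have : 1 ≤ M := hm.trans hm'
    positivity
  have hg : 1 ≤ Nat.gcd (m * h) (n * l) := Nat.gcd_pos_of_pos_left _ (Nat.mul_pos hm hh)
  have hg' : (1 : ℝ) ≤ Nat.gcd (m * h) (n * l) := by exact_mod_cast hg
  have hgl : (Nat.gcd (m * h) (n * l) : ℝ) ≤ m * h := by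
    exact_mod_cast Nat.gcd_le_left _ (Nat.mul_pos hm hh)
  have hgr : (Nat.gcd (m * h) (n * l) : ℝ) ≤ n * l := by
    exact_mod_cast Nat.gcd_le_right _ (Nat.mul_pos hn hl)
  have hlog0 : 0 ≤ Real.log ((h : ℝ) * l) := by
    apply Real.log_nonneg
    have : 1 ≤ h * l := Nat.mul_pos hh hl
    exact_mod_cast this
  have hup : gl (m * h) (n * l) ≤ 0 := by
    unfold gl
    apply Real.log_nonpos
    · positivity
    · rw [div_le_one (by positivity)]
      push_cast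
      nlinarith
  have hlo : -(2 * L + Real.log ((h : ℝ) * l)) ≤ gl (m * h) (n * l) := by
    unfold gl
    rw [Real.log_div (by positivity) (by positivity)]
    have h3 : 0 ≤ Real.log ((Nat.gcd (m * h) (n * l) : ℝ) ^ 2) := by
      apply Real.log_nonneg
      nlinarith
    have h4 : Real.log (((m * h : ℕ) : ℝ) * ((n * l : ℕ) : ℝ)) =
        Real.log m + Real.log n + Real.log ((h : ℝ) * l) := by
      push_cast
      rw [Real.log_mul (by positivity) (by positivity), Real.log_mul (by positivity) (by positivity),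
        Real.log_mul (by positivity) (by positivity), Real.log_mul (by positivity) (by positivity)]
      ring
    have h5 : Real.log m ≤ L := (Real.log_le_log hm1 (by exact_mod_cast hm')).trans hM
    have h6 : Real.log n ≤ L := (Real.log_le_log hn1 (by exact_mod_cast hn')).trans hM
    rw [h4]
    linarith
  rw [abs_le]
  constructor
  · nlinarith
  · nlinarith

/-! ### the bilinear form -/

def B (M : ℕ) (L : ℝ) (u v : ℕ → ℝ) (h l : ℕ) : ℝ :=
  ∑ m ∈ Icc 1 M, ∑ n ∈ Icc 1 M, u m * v n * kap L (m * h) (n * l)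

theorem B_comm (M : ℕ) (L : ℝ) (u v : ℕ → ℝ) (h l : ℕ) : B M L u v h l = B M L v u l h := by
  unfold B
  rw [Finset.sum_comm]
  refine Finset.sum_congr rfl (fun n _ => Finset.sum_congr rfl (fun m _ => ?_))
  rw [kap_comm, mul_comm (u m)]

theorem B_add (M : ℕ) (L : ℝ) (u v v' : ℕ → ℝ) (h l : ℕ) :
    B M L u (fun n => v n + v' n) h l = B M L u v h l + B M L u v' h l := by
  unfold B
  rw [← Finset.sum_add_distrib]
  refine Finset.sum_congr rfl (fun m _ => ?_)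
  rw [← Finset.sum_add_distrib]
  refine Finset.sum_congr rfl (fun n _ => ?_)
  ring

theorem B_sub (M : ℕ) (L : ℝ) (u v v' : ℕ → ℝ) (h l : ℕ) :
    B M L u (fun n => v n - v' n) h l = B M L u v h l - B M L u v' h l := by
  unfold B
  rw [← Finset.sum_sub_distrib]
  refine Finset.sum_congr rfl (fun m _ => ?_)
  rw [← Finset.sum_sub_distrib]
  refine Finset.sum_congr rfl (fun n _ => ?_)
  ring

/-- `v` on the multiples of `p` -/
def dD (p : ℕ) (v : ℕ → ℝ) (n : ℕ) : ℝ := if p ∣ n then v n else 0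
/-- `v` off the multiples of `p` -/
def dN (p : ℕ) (v : ℕ → ℝ) (n : ℕ) : ℝ := if p ∣ n then 0 else v n
/-- shift -/
def dT (p : ℕ) (v : ℕ → ℝ) (n : ℕ) : ℝ := v (p * n)

theorem B_split (M : ℕ) (L : ℝ) (p : ℕ) (u v : ℕ → ℝ) (h l : ℕ) :
    B M L u v h l = B M L u (dN p v) h l + B M L u (dD p v) h l := by
  rw [← B_add]
  congr 1
  funext n
  unfold dN dD
  split_ifs <;> simp

theorem B_D (M : ℕ) (L : ℝ) (p : ℕ) (hp : 1 ≤ p) (u v : ℕ → ℝ) (hv : ∀ n, M < n → v n = 0) (h l : ℕ) :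
    B M L u (dD p v) h l = B M L u (dT p v) h (p * l) := by
  unfold B
  refine Finset.sum_congr rfl (fun m _ => ?_)
  have h1 := re_zero M p hp (fun n => u m * v n * kap L (m * h) (n * l)) (fun n hn => by
    simp only [hv n hn]; ring)
  have h2 : ∀ n, u m * dD p v n * kap L (m * h) (n * l) =
      if p ∣ n then u m * v n * kap L (m * h) (n * l) else 0 := by
    intro n
    unfold dD
    split_ifs <;> simp
  rw [Finset.sum_congr rfl (fun n _ => h2 n), h1]
  refine Finset.sum_congr rfl (fun a _ => ?_)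
  unfold dT
  have : p * a * l = a * (p * l) := by ring
  rw [this]

theorem B_pp (M : ℕ) (L : ℝ) (p : ℕ) (hp : 1 ≤ p) (u v : ℕ → ℝ) (h l : ℕ) :
    B M L u v (p * h) (p * l) = 1 / (p : ℝ) * B M L u v h l := by
  unfold B
  rw [Finset.mul_sum]
  refine Finset.sum_congr rfl (fun m _ => ?_)
  rw [Finset.mul_sum]
  refine Finset.sum_congr rfl (fun n _ => ?_)
  have h1 : m * (p * h) = p * (m * h) := by ring
  have h2 : n * (p * l) = p * (n * l) := by ring
  rw [h1, h2, kap_mul L p _ _ hp]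
  ring

theorem B_bd (h l : ℕ) (hh : 1 ≤ h) (hl : 1 ≤ l) : ∃ C : ℝ, 0 ≤ C ∧ ∀ (M : ℕ) (L : ℝ) (u v : ℕ → ℝ) (δ : ℝ),
    1 ≤ L → Real.log M ≤ L → 0 ≤ δ → (∀ m, 1 ≤ m → |u m| ≤ 1) → (∀ m, 1 ≤ m → |v m| ≤ δ) →
    |B M L u v h l| ≤ δ * (C * L ^ 4) := by
  refine ⟨8 * (3 + Real.log (h * l)), ?_, ?_⟩
  · have hlog0 : 0 ≤ Real.log ((h : ℝ) * l) := by
      apply Real.log_nonneg
      have : 1 ≤ h * l := Nat.mul_pos hh hl
      exact_mod_cast this
    linarith
  intro M L u v δ hL hM hδ hu hv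
  have hlog0 : 0 ≤ Real.log ((h : ℝ) * l) := by
    apply Real.log_nonneg
    have : 1 ≤ h * l := Nat.mul_pos hh hl
    exact_mod_cast this
  have hA : 0 ≤ δ * ((3 + Real.log (h * l)) * L) := by positivity
  calc |B M L u v h l| ≤ ∑ m ∈ Icc 1 M, ∑ n ∈ Icc 1 M, |u m * v n * kap L (m * h) (n * l)| := by
        unfold B
        refine (Finset.abs_sum_le_sum_abs _ _).trans (Finset.sum_le_sum (fun m _ => ?_))
        exact Finset.abs_sum_le_sum_abs _ _
    _ ≤ ∑ m ∈ Icc 1 M, ∑ n ∈ Icc 1 M, (δ * ((3 + Real.log (h * l)) * L)) *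
          ((Nat.gcd m n : ℝ) / ((m : ℝ) * n)) := by
        refine Finset.sum_le_sum (fun m hm => Finset.sum_le_sum (fun n hn => ?_))
        rw [Finset.mem_Icc] at hm hn
        have h1 := gl_abs L M m n h l hL hM hm.1 hn.1 hm.2 hn.2 hh hl
        have h2 := gk_le m n h l hm.1 hn.1 hh hl
        have h3 := gk_nn (m * h) (n * l)
        rw [abs_mul, abs_mul]
        unfold kap
        rw [abs_mul, abs_of_nonneg h3]
        have h4 : |u m| * |v n| ≤ δ := by
          have := mul_le_mul (hu m hm.1) (hv n hn.1) (abs_nonneg _) zero_le_one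
          linarith
        have h5 : gk (m * h) (n * l) * |L + gl (m * h) (n * l)| ≤
            (Nat.gcd m n : ℝ) / ((m : ℝ) * n) * ((3 + Real.log (h * l)) * L) :=
          mul_le_mul h2 h1 (abs_nonneg _) (h3.trans h2)
        have h6 := mul_le_mul h4 h5 (by positivity) hδ
        calc _ ≤ _ := h6
          _ = _ := by ring
    _ = (δ * ((3 + Real.log (h * l)) * L)) *
          ∑ m ∈ Icc 1 M, ∑ n ∈ Icc 1 M, ((Nat.gcd m n : ℝ) / ((m : ℝ) * n)) := by
        rw [Finset.mul_sum]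
        refine Finset.sum_congr rfl (fun m _ => ?_)
        rw [Finset.mul_sum]
    _ ≤ (δ * ((3 + Real.log (h * l)) * L)) * (8 * L ^ 3) :=
        mul_le_mul_of_nonneg_left (gsum M L hL hM) hA
    _ = δ * (8 * (3 + Real.log (h * l)) * L ^ 4) := by ring

theorem B_left (p : ℕ) (hp : p.Prime) (h l : ℕ) (hh : 1 ≤ h) (hl : 1 ≤ l) (hpl : ¬ p ∣ l) :
    ∃ C : ℝ, 0 ≤ C ∧ ∀ (M : ℕ) (L : ℝ) (u v : ℕ → ℝ),
    1 ≤ L → Real.log M ≤ L → (∀ m, 1 ≤ m → |u m| ≤ 1) → (∀ m, 1 ≤ m → |v m| ≤ 1) →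
    |B M L u (dN p v) (p * h) l - 1 / (p : ℝ) * B M L u (dN p v) h l| ≤ C * L ^ 3 := by
  have hp0 : (1 : ℝ) ≤ p := by exact_mod_cast hp.one_lt.le
  have hlp : 0 ≤ Real.log p := Real.log_nonneg hp0
  refine ⟨Real.log p * 8, by positivity, ?_⟩
  intro M L u v hL hM hu hv
  have e1 : B M L u (dN p v) (p * h) l - 1 / (p : ℝ) * B M L u (dN p v) h l =
      ∑ m ∈ Icc 1 M, ∑ n ∈ Icc 1 M, u m * dN p v n *
        (kap L (m * (p * h)) (n * l) - 1 / (p : ℝ) * kap L (m * h) (n * l)) := by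
    unfold B
    rw [Finset.mul_sum, ← Finset.sum_sub_distrib]
    refine Finset.sum_congr rfl (fun m _ => ?_)
    rw [Finset.mul_sum, ← Finset.sum_sub_distrib]
    refine Finset.sum_congr rfl (fun n _ => ?_)
    ring
  rw [e1]
  calc |∑ m ∈ Icc 1 M, ∑ n ∈ Icc 1 M, u m * dN p v n *
        (kap L (m * (p * h)) (n * l) - 1 / (p : ℝ) * kap L (m * h) (n * l))| ≤
        ∑ m ∈ Icc 1 M, ∑ n ∈ Icc 1 M, |u m * dN p v n *
        (kap L (m * (p * h)) (n * l) - 1 / (p : ℝ) * kap L (m * h) (n * l))| := by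
        refine (Finset.abs_sum_le_sum_abs _ _).trans (Finset.sum_le_sum (fun m _ => ?_))
        exact Finset.abs_sum_le_sum_abs _ _
    _ ≤ ∑ m ∈ Icc 1 M, ∑ n ∈ Icc 1 M, Real.log p * ((Nat.gcd m n : ℝ) / ((m : ℝ) * n)) := by
        refine Finset.sum_le_sum (fun m hm => Finset.sum_le_sum (fun n hn => ?_))
        rw [Finset.mem_Icc] at hm hn
        unfold dN
        split_ifs with hd
        · simp only [mul_zero, zero_mul, abs_zero]
          positivity
        · have hnd : ¬ p ∣ n * l := by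
            intro hc
            rcases (Nat.Prime.dvd_mul hp).1 hc with h1 | h1
            · exact hd h1
            · exact hpl h1
          have e2 : m * (p * h) = p * (m * h) := by ring
          rw [e2, kap_left L p (m * h) (n * l) hp (Nat.mul_pos hm.1 hh) (Nat.mul_pos hn.1 hl) hnd]
          have e3 : 1 / (p : ℝ) * kap L (m * h) (n * l) - 1 / (p : ℝ) * Real.log p * gk (m * h) (n * l) -
              1 / (p : ℝ) * kap L (m * h) (n * l) = -(1 / (p : ℝ) * Real.log p * gk (m * h) (n * l)) := by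
            ring
          rw [e3, abs_mul, abs_mul, abs_neg]
          have h2 := gk_le m n h l hm.1 hn.1 hh hl
          have h3 := gk_nn (m * h) (n * l)
          have h4 : |u m| * |v n| ≤ 1 := by
            have := mul_le_mul (hu m hm.1) (hv n hn.1) (abs_nonneg _) zero_le_one
            linarith
          have h5 : 1 / (p : ℝ) ≤ 1 := by
            rw [div_le_one (by linarith)]; exact hp0
          have h6 : |1 / (p : ℝ) * Real.log p * gk (m * h) (n * l)| ≤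
              Real.log p * ((Nat.gcd m n : ℝ) / ((m : ℝ) * n)) := by
            rw [abs_of_nonneg (by positivity)]
            have h7 : 1 / (p : ℝ) * Real.log p ≤ Real.log p := by
              have := mul_le_mul_of_nonneg_right h5 hlp
              linarith
            exact mul_le_mul h7 h2 h3 hlp
          have h8 := mul_le_mul h4 h6 (abs_nonneg _) zero_le_one
          linarith
    _ = Real.log p * ∑ m ∈ Icc 1 M, ∑ n ∈ Icc 1 M, ((Nat.gcd m n : ℝ) / ((m : ℝ) * n)) := by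
        rw [Finset.mul_sum]
        refine Finset.sum_congr rfl (fun m _ => ?_)
        rw [Finset.mul_sum]
    _ ≤ Real.log p * (8 * L ^ 3) := mul_le_mul_of_nonneg_left (gsum M L hL hM) hlp
    _ = Real.log p * 8 * L ^ 3 := by ring

/-! ### negligible quantities -/

def Ad (K : ℝ) (M : ℕ) (L : ℝ) (f g : ℕ → ℝ) : Prop :=
  1 ≤ M ∧ 1 ≤ L ∧ Real.log M ≤ L ∧ Wt K L M f ∧ Wt K L M g

def O3 (K : ℝ) (Φ : ℕ → ℝ → (ℕ → ℝ) → (ℕ → ℝ) → ℝ) : Prop :=
  ∃ C : ℝ, 0 ≤ C ∧ ∀ (M : ℕ) (L : ℝ) (f g : ℕ → ℝ), Ad K M L f g → |Φ M L f g| ≤ C * L ^ 3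

theorem O3.add {K : ℝ} {Φ Ψ : ℕ → ℝ → (ℕ → ℝ) → (ℕ → ℝ) → ℝ} (h1 : O3 K Φ) (h2 : O3 K Ψ) :
    O3 K (fun M L f g => Φ M L f g + Ψ M L f g) := by
  obtain ⟨C, hC, h1⟩ := h1
  obtain ⟨D, hD, h2⟩ := h2
  refine ⟨C + D, by positivity, fun M L f g ha => ?_⟩
  refine (abs_add_le _ _).trans ?_
  have := add_le_add (h1 M L f g ha) (h2 M L f g ha)
  linarith

theorem O3.smul {K : ℝ} {Φ : ℕ → ℝ → (ℕ → ℝ) → (ℕ → ℝ) → ℝ} (c : ℝ) (h1 : O3 K Φ) :
    O3 K (fun M L f g => c * Φ M L f g) := by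
  obtain ⟨C, hC, h1⟩ := h1
  refine ⟨|c| * C, by positivity, fun M L f g ha => ?_⟩
  rw [abs_mul, mul_assoc]
  exact mul_le_mul_of_nonneg_left (h1 M L f g ha) (abs_nonneg _)

theorem O3.cg {K : ℝ} {Φ Ψ : ℕ → ℝ → (ℕ → ℝ) → (ℕ → ℝ) → ℝ} (h1 : O3 K Φ)
    (h : ∀ M L f g, Ψ M L f g = Φ M L f g) : O3 K Ψ := by
  obtain ⟨C, hC, h1⟩ := h1
  exact ⟨C, hC, fun M L f g ha => by rw [h]; exact h1 M L f g ha⟩

theorem O3.swap {K : ℝ} {Φ : ℕ → ℝ → (ℕ → ℝ) → (ℕ → ℝ) → ℝ} (h1 : O3 K Φ) :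
    O3 K (fun M L f g => Φ M L g f) := by
  obtain ⟨C, hC, h1⟩ := h1
  exact ⟨C, hC, fun M L f g ha => h1 M L g f ⟨ha.1, ha.2.1, ha.2.2.1, ha.2.2.2.2, ha.2.2.2.1⟩⟩

/-! ### the relations -/

theorem shift (K : ℝ) (hK : 0 < K) (p : ℕ) (hp : p.Prime) (h l : ℕ) (hh : 1 ≤ h) (hl : 1 ≤ l) :
    ∃ C : ℝ, 0 ≤ C ∧ ∀ (M : ℕ) (L : ℝ) (u v : ℕ → ℝ), 1 ≤ L → Real.log M ≤ L →
    (∀ m, 1 ≤ m → |u m| ≤ 1) → Wt K L M v →
    |B M L u (dT p v) h l - B M L u v h l| ≤ C * L ^ 3 := by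
  obtain ⟨C, hC, hB⟩ := B_bd h l hh hl
  have hp0 : (1 : ℝ) ≤ p := by exact_mod_cast hp.one_lt.le
  have hlp : 0 ≤ Real.log p := Real.log_nonneg hp0
  refine ⟨K * Real.log p * C, by positivity, fun M L u v hL hM hu hv => ?_⟩
  have hL0 : 0 < L := by linarith
  rw [← B_sub]
  have h1 := hB M L u (fun n => dT p v n - v n) (K * Real.log p / L) hL hM (by positivity) hu
    (fun m hm => hv.2.2 p m hp.one_lt.le hm)
  refine h1.trans (le_of_eq ?_)
  field_simp

theorem dT_bd (p : ℕ) (v : ℕ → ℝ) (hv : ∀ n, |v n| ≤ 1) : ∀ m, 1 ≤ m → |dT p v m| ≤ 1 :=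
  fun m _ => hv _

theorem dN_bd (p : ℕ) (v : ℕ → ℝ) (hv : ∀ n, |v n| ≤ 1) : ∀ m, 1 ≤ m → |dN p v m| ≤ 1 := by
  intro m _
  unfold dN
  split_ifs
  · simp
  · exact hv _

theorem up (K : ℝ) (hK : 0 < K) (p : ℕ) (hp : p.Prime) (h l : ℕ) (hh : 1 ≤ h) (hl : 1 ≤ l)
    (hpl : ¬ p ∣ l) :
    ∃ C : ℝ, 0 ≤ C ∧ ∀ (M : ℕ) (L : ℝ) (u v : ℕ → ℝ), 1 ≤ L → Real.log M ≤ L →
    (∀ m, 1 ≤ m → |u m| ≤ 1) → Wt K L M v →
    |B M L u v (p * h) l - 1 / (p : ℝ) * B M L u v h l - 1 / (p : ℝ) * B M L u (dN p v) h l| ≤ C * L ^ 3 := by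
  obtain ⟨C, hC, h1⟩ := shift K hK p hp h l hh hl
  obtain ⟨D, hD, h2⟩ := B_left p hp h l hh hl hpl
  have hp0 : (1 : ℝ) ≤ p := by exact_mod_cast hp.one_lt.le
  refine ⟨C + D, by positivity, fun M L u v hL hM hu hv => ?_⟩
  have h1 := h1 M L u v hL hM hu hv
  have h2 := h2 M L u v hL hM hu (fun m _ => hv.1 m)
  have e1 : B M L u v (p * h) l = B M L u (dN p v) (p * h) l + 1 / (p : ℝ) * B M L u (dT p v) h l := by
    rw [B_split M L p u v (p * h) l, B_D M L p hp.one_lt.le u v hv.2.1 (p * h) l,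
      B_pp M L p hp.one_lt.le]
  have e2 : B M L u v (p * h) l - 1 / (p : ℝ) * B M L u v h l - 1 / (p : ℝ) * B M L u (dN p v) h l =
      (B M L u (dN p v) (p * h) l - 1 / (p : ℝ) * B M L u (dN p v) h l) +
        1 / (p : ℝ) * (B M L u (dT p v) h l - B M L u v h l) := by
    rw [e1]; ring
  rw [e2]
  refine (abs_add_le _ _).trans ?_
  rw [abs_mul]
  have h5 : |1 / (p : ℝ)| ≤ 1 := by
    rw [abs_of_nonneg (by positivity), div_le_one (by linarith)]; exact hp0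
  have h6 := mul_le_mul h5 h1 (abs_nonneg _) zero_le_one
  linarith

/-- relation (i) -/
theorem relY (K : ℝ) (hK : 0 < K) (p : ℕ) (hp : p.Prime) (h l : ℕ) (hh : 1 ≤ h) (hl : 1 ≤ l)
    (hpl : ¬ p ∣ l) :
    O3 K (fun M L f g => B M L f (dN p g) h l - B M L (dN p f) (dN p g) h l -
      1 / (p : ℝ) * B M L f (dN p g) h l) := by
  obtain ⟨C, hC, h1⟩ := shift K hK p hp l h hl hh
  obtain ⟨D, hD, h2⟩ := B_left p hp h l hh hl hpl
  have hp0 : (1 : ℝ) ≤ p := by exact_mod_cast hp.one_lt.le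
  refine ⟨C + D, by positivity, fun M L f g ha => ?_⟩
  obtain ⟨hM1, hL, hM, hf, hg⟩ := ha
  have h1 := h1 M L (dN p g) f hL hM (dN_bd p g hg.1) hf
  have h2 := h2 M L (dT p f) g hL hM (dT_bd p f hf.1) (fun m _ => hg.1 m)
  have e1 : B M L f (dN p g) h l = B M L (dN p f) (dN p g) h l + B M L (dT p f) (dN p g) (p * h) l := by
    rw [B_comm M L f (dN p g) h l, B_split M L p (dN p g) f l h,
      B_D M L p hp.one_lt.le (dN p g) f hf.2.1 l h, B_comm M L (dN p g) (dN p f) l h,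
      B_comm M L (dN p g) (dT p f) l (p * h)]
  have e2 : B M L (dT p f) (dN p g) h l = B M L (dN p g) (dT p f) l h := B_comm _ _ _ _ _ _
  have e3 : B M L f (dN p g) h l = B M L (dN p g) f l h := B_comm _ _ _ _ _ _
  have e4 : B M L f (dN p g) h l - B M L (dN p f) (dN p g) h l - 1 / (p : ℝ) * B M L f (dN p g) h l =
      (B M L (dT p f) (dN p g) (p * h) l - 1 / (p : ℝ) * B M L (dT p f) (dN p g) h l) +
        1 / (p : ℝ) * (B M L (dN p g) (dT p f) l h - B M L (dN p g) f l h) := by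
    rw [← e3, ← e2]
    linear_combination e1
  beta_reduce
  rw [e4]
  refine (abs_add_le _ _).trans ?_
  rw [abs_mul]
  have h5 : |1 / (p : ℝ)| ≤ 1 := by
    rw [abs_of_nonneg (by positivity), div_le_one (by linarith)]; exact hp0
  have h6 := mul_le_mul h5 h1 (abs_nonneg _) zero_le_one
  linarith

/-- relation (iii) -/
theorem relS (K : ℝ) (hK : 0 < K) (p : ℕ) (hp : p.Prime) (h l : ℕ) (hh : 1 ≤ h) (hl : 1 ≤ l)
    (hpl : ¬ p ∣ l) :
    O3 K (fun M L f g => B M L f g h l - B M L (dN p f) g h l - 1 / (p : ℝ) * B M L f g h l -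
      1 / (p : ℝ) * B M L f (dN p g) h l) := by
  obtain ⟨C, hC, h1⟩ := shift K hK p hp l h hl hh
  obtain ⟨D, hD, h2⟩ := up K hK p hp h l hh hl hpl
  have hp0 : (1 : ℝ) ≤ p := by exact_mod_cast hp.one_lt.le
  refine ⟨C + C + D, by positivity, fun M L f g ha => ?_⟩
  obtain ⟨hM1, hL, hM, hf, hg⟩ := ha
  have h1a := h1 M L (dN p g) f hL hM (dN_bd p g hg.1) hf
  have h1b := h1 M L g f hL hM (fun m _ => hg.1 m) hf
  have h2 := h2 M L (dT p f) g hL hM (dT_bd p f hf.1) hg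
  have e1 : B M L f g h l = B M L (dN p f) g h l + B M L (dT p f) g (p * h) l := by
    rw [B_comm M L f g h l, B_split M L p g f l h,
      B_D M L p hp.one_lt.le g f hf.2.1 l h, B_comm M L g (dN p f) l h,
      B_comm M L g (dT p f) l (p * h)]
  have e2 : B M L (dT p f) (dN p g) h l = B M L (dN p g) (dT p f) l h := B_comm _ _ _ _ _ _
  have e2' : B M L (dT p f) g h l = B M L g (dT p f) l h := B_comm _ _ _ _ _ _
  have e3 : B M L f (dN p g) h l = B M L (dN p g) f l h := B_comm _ _ _ _ _ _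
  have e3' : B M L f g h l = B M L g f l h := B_comm _ _ _ _ _ _
  have e4 : B M L f g h l - B M L (dN p f) g h l - 1 / (p : ℝ) * B M L f g h l -
      1 / (p : ℝ) * B M L f (dN p g) h l =
      (B M L (dT p f) g (p * h) l - 1 / (p : ℝ) * B M L (dT p f) g h l -
        1 / (p : ℝ) * B M L (dT p f) (dN p g) h l) +
        (1 / (p : ℝ) * (B M L (dN p g) (dT p f) l h - B M L (dN p g) f l h) +
          1 / (p : ℝ) * (B M L g (dT p f) l h - B M L g f l h)) := by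
    rw [← e3, ← e2, ← e3', ← e2']
    linear_combination e1
  beta_reduce
  rw [e4]
  refine (abs_add_le _ _).trans ?_
  have h7 := abs_add_le (1 / (p : ℝ) * (B M L (dN p g) (dT p f) l h - B M L (dN p g) f l h))
    (1 / (p : ℝ) * (B M L g (dT p f) l h - B M L g f l h))
  rw [abs_mul, abs_mul] at h7
  have h5 : |1 / (p : ℝ)| ≤ 1 := by
    rw [abs_of_nonneg (by positivity), div_le_one (by linarith)]; exact hp0
  have h6 := mul_le_mul h5 h1a (abs_nonneg _) zero_le_one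
  have h6' := mul_le_mul h5 h1b (abs_nonneg _) zero_le_one
  linarith

/-- the part prime to `p` -/
theorem relF (K : ℝ) (hK : 0 < K) (p : ℕ) (hp : p.Prime) (h l : ℕ) (hh : 1 ≤ h) (hl : 1 ≤ l)
    (hph : ¬ p ∣ h) (hpl : ¬ p ∣ l) :
    O3 K (fun M L f g => B M L f (dN p g) h l - ((p : ℝ) - 1) / ((p : ℝ) + 1) * B M L f g h l) := by
  have r1 := relY K hK p hp h l hh hl hpl
  have r2 := (relY K hK p hp l h hl hh hph).swap
  have r3 := relS K hK p hp h l hh hl hpl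
  have hp0 : (1 : ℝ) < p := by exact_mod_cast hp.one_lt
  have hp1 : (p : ℝ) - 1 ≠ 0 := by linarith
  have hp2 : (p : ℝ) + 1 ≠ 0 := by linarith
  have hp3 : (p : ℝ) ≠ 0 := by linarith
  -- Y1 - Y2
  have r4 := (r1.add (r2.smul (-1))).smul ((p : ℝ) / (p - 1))
  refine ((r4.smul (1 / (1 + 1 / (p : ℝ)))).add (r3.smul (-1 / (1 + 1 / (p : ℝ))))).cg ?_
  intro M L f g
  have e2 : B M L (dN p g) (dN p f) l h = B M L (dN p f) (dN p g) h l := B_comm _ _ _ _ _ _
  have e3 : B M L g (dN p f) l h = B M L (dN p f) g h l := B_comm _ _ _ _ _ _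
  have hp4 : 1 + 1 / (p : ℝ) ≠ 0 := by positivity
  have hp5 : (p : ℝ) * (p - 1) ≠ 0 := mul_ne_zero hp3 hp1
  rw [e2, e3]
  field_simp
  ring

theorem powN (K : ℝ) (p : ℕ) (hp : p.Prime) (h l : ℕ) (hh : 1 ≤ h) (hl : 1 ≤ l)
    (hpl : ¬ p ∣ l) (a : ℕ) :
    O3 K (fun M L f g => B M L f (dN p g) (p ^ a * h) l - (1 / (p : ℝ)) ^ a * B M L f (dN p g) h l) := by
  induction a with
  | zero =>
    refine ⟨0, le_rfl, fun M L f g _ => ?_⟩
    simp
  | succ a ih =>
    have h1 : 1 ≤ p ^ a * h := Nat.mul_pos (Nat.pow_pos hp.pos) hh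
    obtain ⟨D, hD, h2⟩ := B_left p hp (p ^ a * h) l h1 hl hpl
    have r : O3 K (fun M L f g => B M L f (dN p g) (p * (p ^ a * h)) l -
        1 / (p : ℝ) * B M L f (dN p g) (p ^ a * h) l) :=
      ⟨D, hD, fun M L f g ha => h2 M L f g ha.2.1 ha.2.2.1 (fun m _ => ha.2.2.2.1.1 m)
        (fun m _ => ha.2.2.2.2.1 m)⟩
    refine (r.add (ih.smul (1 / (p : ℝ)))).cg ?_
    intro M L f g
    have e : p ^ (a + 1) * h = p * (p ^ a * h) := by ring
    rw [e]
    ring

theorem powS (K : ℝ) (hK : 0 < K) (p : ℕ) (hp : p.Prime) (h l : ℕ) (hh : 1 ≤ h) (hl : 1 ≤ l)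
    (hpl : ¬ p ∣ l) (a : ℕ) :
    O3 K (fun M L f g => B M L f g (p ^ a * h) l - (1 / (p : ℝ)) ^ a * (B M L f g h l +
      a * B M L f (dN p g) h l)) := by
  induction a with
  | zero =>
    refine ⟨0, le_rfl, fun M L f g _ => ?_⟩
    simp
  | succ a ih =>
    have h1 : 1 ≤ p ^ a * h := Nat.mul_pos (Nat.pow_pos hp.pos) hh
    obtain ⟨D, hD, h2⟩ := up K hK p hp (p ^ a * h) l h1 hl hpl
    have r : O3 K (fun M L f g => B M L f g (p * (p ^ a * h)) l -
        1 / (p : ℝ) * B M L f g (p ^ a * h) l - 1 / (p : ℝ) * B M L f (dN p g) (p ^ a * h) l) :=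
      ⟨D, hD, fun M L f g ha => h2 M L f g ha.2.1 ha.2.2.1 (fun m _ => ha.2.2.2.1.1 m)
        ha.2.2.2.2⟩
    have r2 := powN K p hp h l hh hl hpl a
    refine ((r.add (ih.smul (1 / (p : ℝ)))).add (r2.smul (1 / (p : ℝ)))).cg ?_
    intro M L f g
    have e : p ^ (a + 1) * h = p * (p ^ a * h) := by ring
    rw [e]
    push_cast
    ring

theorem powF (K : ℝ) (hK : 0 < K) (p : ℕ) (hp : p.Prime) (h l : ℕ) (hh : 1 ≤ h) (hl : 1 ≤ l)
    (hph : ¬ p ∣ h) (hpl : ¬ p ∣ l) (a : ℕ) :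
    O3 K (fun M L f g => B M L f g (p ^ a * h) l - (1 / (p : ℝ)) ^ a *
      (1 + a * (((p : ℝ) - 1) / ((p : ℝ) + 1))) * B M L f g h l) := by
  refine ((powS K hK p hp h l hh hl hpl a).add
    ((relF K hK p hp h l hh hl hph hpl).smul ((1 / (p : ℝ)) ^ a * a))).cg ?_
  intro M L f g
  ring

/-! ### the weights -/

theorem w2_comm (h l : ℕ) : w2 (h, l) = w2 (l, h) := by
  unfold w2 w1
  simp only []
  rw [Nat.gcd_comm, mul_comm (h : ℝ), mul_comm h l]
  congr 1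
  refine Finset.prod_congr rfl (fun p _ => ?_)
  congr 2
  have : ((h.factorization p : ℤ) - l.factorization p).natAbs =
      ((l.factorization p : ℤ) - h.factorization p).natAbs := by
    rw [← Int.natAbs_neg]; congr 1; ring
  rw [this]

theorem w2_one : w2 (1, 1) = 1 := by
  unfold w2 w1
  simp

theorem w2_pow (p : ℕ) (hp : p.Prime) (h l : ℕ) (hh : 1 ≤ h) (hl : 1 ≤ l)
    (hph : ¬ p ∣ h) (hpl : ¬ p ∣ l) (a : ℕ) (ha : 0 < a) :
    w2 (p ^ a * h, l) = (1 / (p : ℝ)) ^ a * (1 + a * (((p : ℝ) - 1) / ((p : ℝ) + 1))) * w2 (h, l) := by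
  have hp3 : (p : ℝ) ≠ 0 := by exact_mod_cast hp.ne_zero
  have h1 : w1 (p ^ a * h, l) = (1 / (p : ℝ)) ^ a * w1 (h, l) := by
    unfold w1
    simp only []
    have hc : Nat.Coprime (p ^ a) l := Nat.Coprime.pow_left a ((Nat.Prime.coprime_iff_not_dvd hp).2 hpl)
    rw [Nat.Coprime.gcd_mul_left_cancel h hc]
    push_cast
    have hh' : (h : ℝ) ≠ 0 := by positivity
    have hl' : (l : ℝ) ≠ 0 := by positivity
    rw [one_div_pow]
    field_simp
  have h2 : (p ^ a * h * l).primeFactors = insert p (h * l).primeFactors := by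
    rw [mul_assoc, Nat.primeFactors_mul (pow_ne_zero _ hp.ne_zero) (Nat.mul_pos hh hl).ne',
      Nat.primeFactors_prime_pow ha.ne' hp]
    rfl
  have h3 : p ∉ (h * l).primeFactors := by
    intro hc
    rcases (Nat.Prime.dvd_mul hp).1 (Nat.dvd_of_mem_primeFactors hc) with h4 | h4
    · exact hph h4
    · exact hpl h4
  unfold w2
  simp only []
  rw [h1, h2, Finset.prod_insert h3]
  have h5 : ∀ q ∈ (h * l).primeFactors,
      (1 + ((((p ^ a * h).factorization q : ℤ) - l.factorization q).natAbs : ℝ) * (((q:ℝ) - 1) / ((q:ℝ) + 1))) =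
      (1 + (((h.factorization q : ℤ) - l.factorization q).natAbs : ℝ) * (((q:ℝ) - 1) / ((q:ℝ) + 1))) := by
    intro q hq
    have hqp : p ≠ q := by rintro rfl; exact h3 hq
    have : (p ^ a * h).factorization q = h.factorization q := by
      rw [Nat.factorization_mul (pow_ne_zero _ hp.ne_zero) (by omega), Finsupp.add_apply,
        hp.factorization_pow, Finsupp.single_apply, if_neg hqp, zero_add]
    rw [this]
  rw [Finset.prod_congr rfl h5]
  have h6 : (p ^ a * h).factorization p = a := by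
    rw [Nat.factorization_mul (pow_ne_zero _ hp.ne_zero) (by omega), Finsupp.add_apply,
        hp.factorization_pow, Finsupp.single_apply, if_pos rfl,
        Nat.factorization_eq_zero_of_not_dvd hph, add_zero]
  have h7 : l.factorization p = 0 := Nat.factorization_eq_zero_of_not_dvd hpl
  rw [h6, h7]
  simp only [Nat.cast_zero, sub_zero, Int.natAbs_natCast]
  ring

/-! ### the comparison -/

def Cmp (K : ℝ) (h l : ℕ) : Prop := O3 K (fun M L f g => B M L f g h l - w2 (h, l) * B M L f g 1 1)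

theorem cmp_ind (K : ℝ) (hK : 0 < K) (l : ℕ) (hl : 1 ≤ l) (h0 : Cmp K 1 l) :
    ∀ h : ℕ, 1 ≤ h → Nat.Coprime h l → Cmp K h l := by
  intro h
  induction h using Nat.recOnPrimePow with
  | zero => intro h1; omega
  | one => intro _ _; exact h0
  | prime_pow_mul a p n hp hpa hn ih =>
    intro h1 hc
    have ha : 1 ≤ a := by
      rcases Nat.eq_zero_or_pos a with h | h
      · subst h; simp at hpa
      · exact h
    have hca : Nat.Coprime a l := Nat.Coprime.coprime_mul_left hc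
    have hpl : ¬ p ∣ l := by
      intro hd
      have h2 : Nat.Coprime (p ^ n) l := Nat.Coprime.coprime_mul_right hc
      have h3 : Nat.Coprime p l := Nat.Coprime.coprime_dvd_left (dvd_pow_self p hn.ne') h2
      exact (Nat.Prime.coprime_iff_not_dvd hp).1 h3 hd
    have r := powF K hK p hp a l ha hl hpa hpl n
    refine (r.add ((ih ha hca).smul ((1 / (p : ℝ)) ^ n *
      (1 + n * (((p : ℝ) - 1) / ((p : ℝ) + 1)))))).cg ?_
    intro M L f g
    rw [w2_pow p hp a l ha hl hpa hpl n hn]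
    ring

theorem cmp_swap (K : ℝ) (h l : ℕ) (h0 : Cmp K h l) : Cmp K l h := by
  refine h0.swap.cg ?_
  intro M L f g
  rw [B_comm M L f g l h, B_comm M L f g 1 1, w2_comm l h]

theorem cmp_all (K : ℝ) (hK : 0 < K) (h l : ℕ) (hh : 1 ≤ h) (hl : 1 ≤ l) (hc : Nat.Coprime h l) :
    Cmp K h l := by
  have h11 : Cmp K 1 1 := by
    refine ⟨0, le_rfl, fun M L f g _ => ?_⟩
    rw [w2_one]
    simp
  have hl1 : Cmp K l 1 := cmp_ind K hK 1 le_rfl h11 l hl (Nat.coprime_one_right l)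
  exact cmp_ind K hK l hl (cmp_swap K l 1 hl1) h hh hc

theorem t_A2 : S_A2 := by
  intro h l hh hl hc K hK
  obtain ⟨C, hC, hb⟩ := cmp_all K hK h l hh hl hc
  refine ⟨C + 1, by positivity, fun M L f g hM hL hML hf hg => ?_⟩
  have h1 := hb M L f g ⟨hM, hL, hML, hf, hg⟩
  unfold B kap at h1
  simp only [mul_one] at h1
  refine h1.trans ?_
  have : 0 ≤ L ^ 3 := by positivity
  nlinarith

end

end Pool.Agent.Y54.SX
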